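import Pool.Agent.Lib.PBWB.Basis

/-!
# The canonical projection of the universal enveloping algebra onto the Lie algebra, characteristic zero

`pi F L : U(L) → L` is zero on the powers `(ι p) ^ m`, `m ≠ 1`, and the identity on `L`; it commutes with the
adjoint action of `L` and respects the filtrations by weights.
-/

namespace PBWB

open Module
open scoped TensorProduct

attribute [local instance 100] LieRing.ofAssociativeRing

section Eigen

variable {F M : Type*} [Field F] [CharZero F] [AddCommGroup M] [Module F M]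

/-- The components with respect to the eigenspaces to the eigenvalues `2 ^ j` of a vector in an invariant subspace
are in the subspace. -/
theorem comp_mem (f : Module.End F M) (N : Submodule F M) (hN : ∀ x ∈ N, f x ∈ N) (s : Finset ℕ) (v : ℕ → M)
    (hv : ∀ j ∈ s, f (v j) = (2 : F) ^ j • v j) (h : ∑ j ∈ s, v j ∈ N) : ∀ j ∈ s, v j ∈ N := by
  classical
  induction s using Finset.induction_on generalizing v with
  | empty => intro j hj; exact absurd hj (Finset.notMem_empty j)
  | insert a s ha ih =>
    have h1 : f (∑ j ∈ insert a s, v j) - (2 : F) ^ a • ∑ j ∈ insert a s, v j =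
        ∑ j ∈ s, ((2 : F) ^ j - (2 : F) ^ a) • v j := by
      rw [Finset.sum_insert ha, map_add, map_sum, hv a (Finset.mem_insert_self a s), smul_add, Finset.smul_sum,
        Finset.sum_congr rfl fun j hj => hv j (Finset.mem_insert_of_mem hj)]
      simp only [sub_smul, Finset.sum_sub_distrib]
      abel
    have h2 : ∑ j ∈ s, ((2 : F) ^ j - (2 : F) ^ a) • v j ∈ N := by
      rw [← h1]
      exact sub_mem (hN _ h) (N.smul_mem _ h)
    have h3 : ∀ j ∈ s, v j ∈ N := by
      intro j hj
      have h4 := ih (fun j => ((2 : F) ^ j - (2 : F) ^ a) • v j) (fun j hj => by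
        show f (((2 : F) ^ j - (2 : F) ^ a) • v j) = (2 : F) ^ j • ((2 : F) ^ j - (2 : F) ^ a) • v j
        rw [map_smul, hv j (Finset.mem_insert_of_mem hj), smul_comm]) h2 j hj
      have h5 : (2 : F) ^ j - (2 : F) ^ a ≠ 0 := by
        rw [sub_ne_zero]
        intro h6
        have h7 : ((2 ^ j : ℕ) : F) = ((2 ^ a : ℕ) : F) := by
          push_cast
          exact h6
        have h8 : j = a := Nat.pow_right_injective le_rfl (Nat.cast_injective h7)
        exact ha (h8 ▸ hj)
      exact (Submodule.smul_mem_iff N h5).1 h4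
    intro j hj
    rcases Finset.mem_insert.1 hj with rfl | hj
    · have h4 := h
      rw [Finset.sum_insert ha] at h4
      have h5 : v j = (v j + ∑ i ∈ s, v i) - ∑ i ∈ s, v i := by abel
      rw [h5]
      exact sub_mem h4 (Submodule.sum_mem _ h3)
    · exact h3 j hj

/-- The coefficients of a polynomial with values in a subspace are in the subspace. -/
theorem coeff_mem (N : Submodule F M) (n : ℕ) (e : ℕ → M) (h : ∀ c : F, ∑ k ∈ Finset.range n, c ^ k • e k ∈ N) :
    ∀ k < n, e k ∈ N := by
  intro k hk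
  rw [← Submodule.Quotient.mk_eq_zero, ← Module.forall_dual_apply_eq_zero_iff F]
  intro φ
  obtain ⟨p, hp⟩ : ∃ p : Polynomial F, p = ∑ k ∈ Finset.range n,
      Polynomial.C (φ (Submodule.Quotient.mk (e k))) * Polynomial.X ^ k := ⟨_, rfl⟩
  have h1 : p = 0 := by
    refine Polynomial.funext fun c => ?_
    rw [hp, Polynomial.eval_finsetSum, Polynomial.eval_zero]
    have h2 : φ (Submodule.Quotient.mk (∑ k ∈ Finset.range n, c ^ k • e k)) = 0 := by
      rw [(Submodule.Quotient.mk_eq_zero N).2 (h c), map_zero]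
    rw [← Submodule.mkQ_apply, map_sum, map_sum] at h2
    rw [← h2]
    refine Finset.sum_congr rfl fun k _ => ?_
    rw [Polynomial.eval_mul, Polynomial.eval_C, Polynomial.eval_pow, Polynomial.eval_X, map_smul, map_smul,
      smul_eq_mul, mul_comm]
    rfl
  have h3 := congrArg (fun q => Polynomial.coeff q k) h1
  simp only [hp, Polynomial.finsetSum_coeff, Polynomial.coeff_C_mul_X_pow, Polynomial.coeff_zero] at h3
  rw [Finset.sum_eq_single k] at h3
  · simpa using h3
  · intro j _ hj
    rw [if_neg (Ne.symm hj)]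
  · intro h4
    exact absurd (Finset.mem_range.2 hk) h4

end Eigen

section Powers

variable {F A : Type*} [Field F] [Ring A] [Algebra F A]

/-- The coefficients of `(p + c y) ^ n`. -/
noncomputable def pc (p y : A) : ℕ → ℕ → A
  | 0, 0 => 1
  | 0, _ + 1 => 0
  | n + 1, 0 => p * pc p y n 0
  | n + 1, k + 1 => p * pc p y n (k + 1) + y * pc p y n k

theorem pc_zero (p y : A) (n : ℕ) : pc p y n 0 = p ^ n := by
  induction n with
  | zero => exact (pow_zero p).symm
  | succ n ih =>
    show p * pc p y n 0 = _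
    rw [ih, pow_succ']

theorem pc_big (p y : A) (n k : ℕ) (h : n < k) : pc p y n k = 0 := by
  induction n generalizing k with
  | zero =>
    cases k with
    | zero => omega
    | succ k => rfl
  | succ n ih =>
    cases k with
    | zero => omega
    | succ k =>
      show p * pc p y n (k + 1) + y * pc p y n k = 0
      rw [ih (k + 1) (by omega), ih k (by omega), mul_zero, mul_zero, add_zero]

theorem pow_eq_sum (p y : A) (c : F) (n : ℕ) :
    (p + c • y) ^ n = ∑ k ∈ Finset.range (n + 1), c ^ k • pc p y n k := by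
  induction n with
  | zero => simp [pc]
  | succ n ih =>
    rw [pow_succ', ih, Finset.sum_range_succ' _ (n + 1)]
    have h1 : ∀ k, c ^ (k + 1) • pc p y (n + 1) (k + 1) =
        p * (c ^ (k + 1) • pc p y n (k + 1)) + (c • y) * (c ^ k • pc p y n k) := by
      intro k
      show c ^ (k + 1) • (p * pc p y n (k + 1) + y * pc p y n k) = _
      rw [smul_add, mul_smul_comm, smul_mul_smul_comm, ← pow_succ']
    simp only [h1]
    rw [Finset.sum_add_distrib, add_mul, ← Finset.mul_sum, ← Finset.mul_sum]
    have h2 : ∑ k ∈ Finset.range (n + 1), c ^ k • pc p y n k =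
        (∑ k ∈ Finset.range (n + 1), c ^ (k + 1) • pc p y n (k + 1)) + c ^ 0 • pc p y n 0 := by
      rw [← Finset.sum_range_succ' (fun k => c ^ k • pc p y n k) (n + 1),
        Finset.sum_range_succ _ (n + 1), pc_big p y n (n + 1) (by omega), smul_zero, add_zero]
    have h3 : c ^ 0 • pc p y (n + 1) 0 = p * (c ^ 0 • pc p y n 0) := by
      show c ^ 0 • (p * pc p y n 0) = _
      rw [mul_smul_comm]
    rw [h3]
    conv_lhs => rw [h2]
    rw [mul_add, h2]
    abel

/-- The coefficient of `c` in `(p + c [p, l]) ^ n` is `[p ^ n, l]`. -/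
theorem pc_one_lie (p l : A) (n : ℕ) : pc p (p * l - l * p) n 1 = p ^ n * l - l * p ^ n := by
  induction n with
  | zero => simp [pc]
  | succ n ih =>
    show p * pc p (p * l - l * p) n 1 + (p * l - l * p) * pc p (p * l - l * p) n 0 = _
    rw [ih, pc_zero, pow_succ']
    noncomm_ring

end Powers

section Main

variable (F L : Type*) [Field F] [LieRing L] [LieAlgebra F L]

/-- The span of the `m`-th powers of the elements of `L`. -/
noncomputable def Pw (m : ℕ) : Submodule F (UniversalEnvelopingAlgebra F L) :=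
  Submodule.span F (Set.range fun p : L => UniversalEnvelopingAlgebra.ι F p ^ m)

variable {F L}

theorem pow_mem_Pw (p : L) (m : ℕ) : UniversalEnvelopingAlgebra.ι F p ^ m ∈ Pw F L m :=
  Submodule.subset_span ⟨p, rfl⟩

theorem Pw_one (x : UniversalEnvelopingAlgebra F L) (hx : x ∈ Pw F L 1) :
    ∃ p : L, x = UniversalEnvelopingAlgebra.ι F p := by
  induction hx using Submodule.span_induction with
  | mem x hx =>
    obtain ⟨p, rfl⟩ := hx
    exact ⟨p, pow_one _⟩
  | zero => exact ⟨0, (map_zero _).symm⟩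
  | add x y _ _ hx hy =>
    obtain ⟨p, rfl⟩ := hx
    obtain ⟨q, rfl⟩ := hy
    exact ⟨p + q, (map_add _ p q).symm⟩
  | smul c x _ hx =>
    obtain ⟨p, rfl⟩ := hx
    exact ⟨c • p, (map_smul _ c p).symm⟩

variable [CharZero F]

theorem pc_mem (p y : L) (n k : ℕ) :
    pc (UniversalEnvelopingAlgebra.ι F p) (UniversalEnvelopingAlgebra.ι F y) n k ∈ Pw F L n := by
  by_cases hk : n < k
  · rw [pc_big _ _ n k hk]
    exact zero_mem _
  · refine coeff_mem (F := F) (Pw F L n) (n + 1) (pc (UniversalEnvelopingAlgebra.ι F p)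
      (UniversalEnvelopingAlgebra.ι F y) n) (fun c => ?_) k (by omega)
    rw [← pow_eq_sum, ← map_smul, ← map_add]
    exact pow_mem_Pw _ _

/-- The adjoint action preserves the span of the powers. -/
theorem Pw_lie (l : L) (m : ℕ) (u : UniversalEnvelopingAlgebra F L) (hu : u ∈ Pw F L m) :
    u * UniversalEnvelopingAlgebra.ι F l - UniversalEnvelopingAlgebra.ι F l * u ∈ Pw F L m := by
  have h : Pw F L m ≤ (Pw F L m).comap (LinearMap.mulRight F (UniversalEnvelopingAlgebra.ι F l) -
      LinearMap.mulLeft F (UniversalEnvelopingAlgebra.ι F l)) := by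
    refine Submodule.span_le.2 ?_
    rintro _ ⟨p, rfl⟩
    show UniversalEnvelopingAlgebra.ι F p ^ m * UniversalEnvelopingAlgebra.ι F l -
      UniversalEnvelopingAlgebra.ι F l * UniversalEnvelopingAlgebra.ι F p ^ m ∈ Pw F L m
    rw [← pc_one_lie]
    have h1 : UniversalEnvelopingAlgebra.ι F p * UniversalEnvelopingAlgebra.ι F l -
        UniversalEnvelopingAlgebra.ι F l * UniversalEnvelopingAlgebra.ι F p =
        UniversalEnvelopingAlgebra.ι F ⁅p, l⁆ := by
      rw [LieHom.map_lie, LieRing.of_associative_ring_bracket]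
    rw [h1]
    exact pc_mem p ⁅p, l⁆ m 1
  exact h hu

variable {I : Type*} [LinearOrder I] (b : Basis I F L)

omit [CharZero F] [LinearOrder I] in
theorem iota_mem_UD (x : L) : UniversalEnvelopingAlgebra.ι F x ∈ UD b 1 := by
  rw [← b.linearCombination_repr x, Finsupp.linearCombination_apply, Finsupp.sum, map_sum]
  refine Submodule.sum_mem _ fun i _ => ?_
  rw [map_smul, ← wp_single]
  exact Submodule.smul_mem _ _ (Submodule.subset_span ⟨[i], le_rfl, rfl⟩)

omit [CharZero F] [LinearOrder I] in
theorem pow_mem_UD (x : L) (n : ℕ) : UniversalEnvelopingAlgebra.ι F x ^ n ∈ UD b n := by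
  induction n with
  | zero =>
    rw [pow_zero, ← wp_nil b]
    exact Submodule.subset_span ⟨[], le_rfl, rfl⟩
  | succ n ih =>
    rw [pow_succ]
    exact UD_mul b ih (iota_mem_UD b x)

omit [CharZero F] [LinearOrder I] in
theorem pc_one_mem (p y : L) (n : ℕ) :
    pc (UniversalEnvelopingAlgebra.ι F p) (UniversalEnvelopingAlgebra.ι F y) (n + 1) 1 -
      ((n : F) + 1) • (UniversalEnvelopingAlgebra.ι F y * UniversalEnvelopingAlgebra.ι F p ^ n) ∈ UD b n := by
  induction n with
  | zero =>
    have h1 : pc (UniversalEnvelopingAlgebra.ι F p) (UniversalEnvelopingAlgebra.ι F y) (0 + 1) 1 =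
        UniversalEnvelopingAlgebra.ι F y := by
      show UniversalEnvelopingAlgebra.ι F p * 0 + UniversalEnvelopingAlgebra.ι F y * 1 = _
      rw [mul_zero, zero_add, mul_one]
    rw [h1, pow_zero, mul_one, Nat.cast_zero, zero_add, one_smul, sub_self]
    exact zero_mem _
  | succ n ih =>
    have h1 : pc (UniversalEnvelopingAlgebra.ι F p) (UniversalEnvelopingAlgebra.ι F y) (n + 1 + 1) 1 =
        UniversalEnvelopingAlgebra.ι F p * pc (UniversalEnvelopingAlgebra.ι F p)
          (UniversalEnvelopingAlgebra.ι F y) (n + 1) 1 +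
          UniversalEnvelopingAlgebra.ι F y * UniversalEnvelopingAlgebra.ι F p ^ (n + 1) := by
      rw [← pc_zero _ (UniversalEnvelopingAlgebra.ι F y) (n + 1)]
      rfl
    have h2 : UniversalEnvelopingAlgebra.ι F p * UniversalEnvelopingAlgebra.ι F y =
        UniversalEnvelopingAlgebra.ι F y * UniversalEnvelopingAlgebra.ι F p +
          UniversalEnvelopingAlgebra.ι F ⁅p, y⁆ := by
      rw [LieHom.map_lie, LieRing.of_associative_ring_bracket]
      abel
    have h3 : UniversalEnvelopingAlgebra.ι F p * pc (UniversalEnvelopingAlgebra.ι F p)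
          (UniversalEnvelopingAlgebra.ι F y) (n + 1) 1 +
          UniversalEnvelopingAlgebra.ι F y * UniversalEnvelopingAlgebra.ι F p ^ (n + 1) -
        (((n + 1 : ℕ) : F) + 1) • (UniversalEnvelopingAlgebra.ι F y *
          UniversalEnvelopingAlgebra.ι F p ^ (n + 1)) =
        UniversalEnvelopingAlgebra.ι F p * (pc (UniversalEnvelopingAlgebra.ι F p)
          (UniversalEnvelopingAlgebra.ι F y) (n + 1) 1 -
          ((n : F) + 1) • (UniversalEnvelopingAlgebra.ι F y * UniversalEnvelopingAlgebra.ι F p ^ n)) +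
          ((n : F) + 1) • (UniversalEnvelopingAlgebra.ι F ⁅p, y⁆ * UniversalEnvelopingAlgebra.ι F p ^ n) := by
      have h4 : UniversalEnvelopingAlgebra.ι F p * (UniversalEnvelopingAlgebra.ι F y *
          UniversalEnvelopingAlgebra.ι F p ^ n) =
          UniversalEnvelopingAlgebra.ι F y * UniversalEnvelopingAlgebra.ι F p ^ (n + 1) +
          UniversalEnvelopingAlgebra.ι F ⁅p, y⁆ * UniversalEnvelopingAlgebra.ι F p ^ n := by
        rw [← mul_assoc, h2, add_mul, mul_assoc, ← pow_succ']
      rw [mul_sub, mul_smul_comm, h4, smul_add, Nat.cast_add, Nat.cast_one, add_smul ((n : F) + 1) 1, one_smul]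
      abel
    rw [h1, h3]
    refine add_mem ?_ (Submodule.smul_mem _ _ ?_)
    · have h4 := UD_mul b (iota_mem_UD b p) ih
      rwa [add_comm 1 n] at h4
    · have h4 := UD_mul b (iota_mem_UD b ⁅p, y⁆) (pow_mem_UD b p n)
      rwa [add_comm 1 n] at h4

omit [LinearOrder I] in
/-- The products of length at most `n` are combinations of powers. -/
theorem UD_le_Pw (n : ℕ) : UD b n ≤ ⨆ m ∈ Finset.range (n + 1), Pw F L m := by
  induction n using Nat.strong_induction_on with
  | _ n ih =>
    refine Submodule.span_le.2 ?_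
    rintro _ ⟨w, hw, rfl⟩
    cases w with
    | nil =>
      rw [wp_nil, ← pow_zero (UniversalEnvelopingAlgebra.ι F (0 : L))]
      exact Submodule.mem_iSup_of_mem 0 (Submodule.mem_iSup_of_mem (by simp) (pow_mem_Pw 0 0))
    | cons i w =>
      cases n with
      | zero => simp at hw
      | succ n =>
        have hw1 : w.length ≤ n := by simpa using hw
        have h1 : wp b w ∈ ⨆ m ∈ Finset.range (n + 1), Pw F L m :=
          ih n (by omega) (Submodule.subset_span ⟨w, hw1, rfl⟩)
        have h2 : (⨆ m ∈ Finset.range (n + 1), Pw F L m) ≤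
            (⨆ m ∈ Finset.range (n + 1 + 1), Pw F L m).comap
              (LinearMap.mulLeft F (UniversalEnvelopingAlgebra.ι F (b i))) := by
          refine iSup₂_le fun m hm => Submodule.span_le.2 ?_
          rintro _ ⟨p, rfl⟩
          rw [Finset.mem_range] at hm
          show UniversalEnvelopingAlgebra.ι F (b i) * UniversalEnvelopingAlgebra.ι F p ^ m ∈
            ⨆ m ∈ Finset.range (n + 1 + 1), Pw F L m
          have h3 : (⨆ j ∈ Finset.range (m + 1), Pw F L j) ≤ ⨆ m ∈ Finset.range (n + 1 + 1), Pw F L m :=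
            iSup₂_le fun j hj => le_iSup₂_of_le j (by rw [Finset.mem_range] at hj ⊢; omega) le_rfl
          have h4 := h3 (ih m (by omega) (pc_one_mem b p (b i) m))
          have h5 : pc (UniversalEnvelopingAlgebra.ι F p) (UniversalEnvelopingAlgebra.ι F (b i)) (m + 1) 1 ∈
              ⨆ m ∈ Finset.range (n + 1 + 1), Pw F L m :=
            Submodule.mem_iSup_of_mem (m + 1) (Submodule.mem_iSup_of_mem (by rw [Finset.mem_range]; omega)
              (pc_mem p (b i) (m + 1) 1))
          have h6 := sub_mem h5 h4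
          rw [sub_sub_cancel] at h6
          exact (Submodule.smul_mem_iff _ (Nat.cast_add_one_ne_zero m)).1 h6
        rw [wp_cons]
        exact h2 h1

omit [LinearOrder I] in
include b in
/-- The powers span the universal enveloping algebra. -/
theorem iSup_Pw_of_basis : ⨆ m, Pw F L m = ⊤ := by
  rw [eq_top_iff, ← UG_zero b fun _ => 0, UG]
  refine Submodule.span_le.2 ?_
  rintro _ ⟨w, -, rfl⟩
  have h1 := UD_le_Pw b w.length (Submodule.subset_span ⟨w, le_rfl, rfl⟩)
  have h2 : (⨆ m ∈ Finset.range (w.length + 1), Pw F L m) ≤ ⨆ m, Pw F L m :=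
    iSup₂_le fun m _ => le_iSup (Pw F L) m
  exact h2 h1

variable (F L) in
theorem iSup_Pw : ⨆ m, Pw F L m = ⊤ := iSup_Pw_of_basis (Basis.ofVectorSpace F L)

end Main

section Psi

variable (F L : Type*) [Field F] [LieRing L] [LieAlgebra F L]

/-- The diagonal map. -/
noncomputable def dl : L →ₗ⁅F⁆ UniversalEnvelopingAlgebra F L ⊗[F] UniversalEnvelopingAlgebra F L where
  toFun x := UniversalEnvelopingAlgebra.ι F x ⊗ₜ 1 + 1 ⊗ₜ UniversalEnvelopingAlgebra.ι F x
  map_add' x y := by
    rw [map_add, TensorProduct.add_tmul, TensorProduct.tmul_add]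
    abel
  map_smul' c x := by
    rw [map_smul, ← TensorProduct.smul_tmul', TensorProduct.tmul_smul, RingHom.id_apply, smul_add]
  map_lie' := fun {x y} => by
    rw [LieHom.map_lie, LieRing.of_associative_ring_bracket, LieRing.of_associative_ring_bracket]
    simp only [mul_add, add_mul, Algebra.TensorProduct.tmul_mul_tmul, one_mul, mul_one, TensorProduct.sub_tmul,
      TensorProduct.tmul_sub]
    abel

/-- The diagonal map followed by the multiplication. -/
noncomputable def psi : Module.End F (UniversalEnvelopingAlgebra F L) :=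
  LinearMap.mul' F (UniversalEnvelopingAlgebra F L) ∘ₗ (UniversalEnvelopingAlgebra.lift F (dl F L)).toLinearMap

variable {F L}

theorem psi_pow (p : L) (m : ℕ) : psi F L (UniversalEnvelopingAlgebra.ι F p ^ m) =
    (2 : F) ^ m • UniversalEnvelopingAlgebra.ι F p ^ m := by
  show LinearMap.mul' F (UniversalEnvelopingAlgebra F L)
    (UniversalEnvelopingAlgebra.lift F (dl F L) (UniversalEnvelopingAlgebra.ι F p ^ m)) = _
  rw [map_pow, UniversalEnvelopingAlgebra.lift_ι_apply]
  show LinearMap.mul' F (UniversalEnvelopingAlgebra F L)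
    ((UniversalEnvelopingAlgebra.ι F p ⊗ₜ 1 + 1 ⊗ₜ UniversalEnvelopingAlgebra.ι F p) ^ m) = _
  have hc : Commute (UniversalEnvelopingAlgebra.ι F p ⊗ₜ[F] (1 : UniversalEnvelopingAlgebra F L))
      ((1 : UniversalEnvelopingAlgebra F L) ⊗ₜ[F] UniversalEnvelopingAlgebra.ι F p) := by
    show _ * _ = _ * _
    rw [Algebra.TensorProduct.tmul_mul_tmul, Algebra.TensorProduct.tmul_mul_tmul, one_mul, mul_one]
  rw [hc.add_pow, map_sum]
  have h1 : ∀ k ∈ Finset.range (m + 1), LinearMap.mul' F (UniversalEnvelopingAlgebra F L)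
      ((UniversalEnvelopingAlgebra.ι F p ⊗ₜ[F] (1 : UniversalEnvelopingAlgebra F L)) ^ k *
        ((1 : UniversalEnvelopingAlgebra F L) ⊗ₜ[F] UniversalEnvelopingAlgebra.ι F p) ^ (m - k) *
          ((m.choose k : ℕ) : UniversalEnvelopingAlgebra F L ⊗[F] UniversalEnvelopingAlgebra F L)) =
      ((m.choose k : ℕ) : F) • UniversalEnvelopingAlgebra.ι F p ^ m := by
    intro k hk
    rw [Finset.mem_range] at hk
    rw [Algebra.TensorProduct.tmul_pow, Algebra.TensorProduct.tmul_pow, one_pow, one_pow,
      Algebra.TensorProduct.tmul_mul_tmul, one_mul, mul_one, ← nsmul_eq_mul', map_nsmul, LinearMap.mul'_apply,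
      ← pow_add, Nat.add_sub_cancel' (by omega), Nat.cast_smul_eq_nsmul]
  rw [Finset.sum_congr rfl h1, ← Finset.sum_smul, ← Nat.cast_sum, Nat.sum_range_choose, Nat.cast_pow, Nat.cast_ofNat]

theorem psi_Pw (m : ℕ) (u : UniversalEnvelopingAlgebra F L) (hu : u ∈ Pw F L m) :
    psi F L u = (2 : F) ^ m • u := by
  have h : Pw F L m ≤ LinearMap.eqLocus (psi F L) ((2 : F) ^ m • LinearMap.id) := by
    refine Submodule.span_le.2 ?_
    rintro _ ⟨p, rfl⟩
    exact psi_pow p m
  exact h hu

variable {I : Type*} (b : Basis I F L) (wt : I → ℕ)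

/-- The tensors of weight at least `m`. -/
noncomputable def G2 (m : ℕ) : Submodule F (UniversalEnvelopingAlgebra F L ⊗[F] UniversalEnvelopingAlgebra F L) :=
  Submodule.span F {x | ∃ u v : List I, m ≤ wgt wt u + wgt wt v ∧ x = wp b u ⊗ₜ wp b v}

theorem psi_UG (m : ℕ) (u : UniversalEnvelopingAlgebra F L) (hu : u ∈ UG b wt m) : psi F L u ∈ UG b wt m := by
  have h1 : ∀ w : List I, UniversalEnvelopingAlgebra.lift F (dl F L) (wp b w) ∈ G2 b wt (wgt wt w) := by
    intro w
    induction w with
    | nil =>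
      rw [wp_nil, map_one]
      exact Submodule.subset_span ⟨[], [], by simp [wgt], rfl⟩
    | cons i w ih =>
      rw [wp_cons, map_mul, UniversalEnvelopingAlgebra.lift_ι_apply]
      have h2 : G2 b wt (wgt wt w) ≤ (G2 b wt (wgt wt (i :: w))).comap (LinearMap.mulLeft F (dl F L (b i))) := by
        refine Submodule.span_le.2 ?_
        rintro _ ⟨u, v, h, rfl⟩
        show (UniversalEnvelopingAlgebra.ι F (b i) ⊗ₜ 1 + 1 ⊗ₜ UniversalEnvelopingAlgebra.ι F (b i)) *
          (wp b u ⊗ₜ wp b v) ∈ G2 b wt (wgt wt (i :: w))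
        rw [add_mul, Algebra.TensorProduct.tmul_mul_tmul, Algebra.TensorProduct.tmul_mul_tmul, one_mul, one_mul,
          ← wp_cons, ← wp_cons]
        refine add_mem (Submodule.subset_span ⟨i :: u, v, ?_, rfl⟩) (Submodule.subset_span ⟨u, i :: v, ?_, rfl⟩)
        · rw [wgt_cons, wgt_cons]
          omega
        · rw [wgt_cons, wgt_cons]
          omega
      exact h2 ih
  have h2 : ∀ n, G2 b wt n ≤ (UG b wt n).comap (LinearMap.mul' F (UniversalEnvelopingAlgebra F L)) := by
    intro n
    refine Submodule.span_le.2 ?_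
    rintro _ ⟨u, v, h, rfl⟩
    show LinearMap.mul' F (UniversalEnvelopingAlgebra F L) (wp b u ⊗ₜ wp b v) ∈ UG b wt n
    rw [LinearMap.mul'_apply, ← wp_append]
    exact Submodule.subset_span ⟨u ++ v, by rwa [wgt_append], rfl⟩
  have h3 : UG b wt m ≤ (UG b wt m).comap (psi F L) := by
    refine Submodule.span_le.2 ?_
    rintro _ ⟨w, hw, rfl⟩
    exact UG_anti b wt hw (h2 _ (h1 w))
  exact h3 hu

end Psi

section Projection

variable (F L : Type*) [Field F] [LieRing L] [LieAlgebra F L]

/-- The span of the powers with exponents different from `1`. -/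
noncomputable def Qw : Submodule F (UniversalEnvelopingAlgebra F L) := ⨆ m : {m : ℕ // m ≠ 1}, Pw F L m.1

variable {F L}

theorem Qw_decomp (q : UniversalEnvelopingAlgebra F L) (hq : q ∈ Qw F L) :
    ∃ v : ℕ →₀ UniversalEnvelopingAlgebra F L, (∀ j, v j ∈ Pw F L j) ∧ v 1 = 0 ∧ q = ∑ j ∈ v.support, v j := by
  classical
  obtain ⟨f, hf, hs⟩ := (Submodule.mem_iSup_iff_exists_finsupp _ _).1 hq
  refine ⟨f.embDomain ⟨Subtype.val, Subtype.val_injective⟩, fun j => ?_, ?_, ?_⟩
  · by_cases hj : j = 1
    · subst hj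
      rw [Finsupp.embDomain_of_notMem_range]
      · exact zero_mem _
      · rintro ⟨⟨k, hk⟩, rfl⟩
        exact hk rfl
    · have h1 := Finsupp.embDomain_apply_self (⟨Subtype.val, Subtype.val_injective⟩ : {m : ℕ // m ≠ 1} ↪ ℕ) f ⟨j, hj⟩
      have h2 : (f.embDomain ⟨Subtype.val, Subtype.val_injective⟩) j = f ⟨j, hj⟩ := h1
      rw [h2]
      exact hf ⟨j, hj⟩
  · rw [Finsupp.embDomain_of_notMem_range]
    rintro ⟨⟨k, hk⟩, rfl⟩
    exact hk rfl
  · rw [Finsupp.support_embDomain, Finset.sum_map, ← hs, Finsupp.sum]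
    refine Finset.sum_congr rfl fun j _ => ?_
    exact (Finsupp.embDomain_apply_self _ f j).symm

variable [CharZero F]

/-- The component in `L` of an element of an invariant subspace is in the subspace. -/
theorem comp_one_mem (N : Submodule F (UniversalEnvelopingAlgebra F L)) (hN : ∀ x ∈ N, psi F L x ∈ N)
    (x q : UniversalEnvelopingAlgebra F L) (hx : x ∈ Pw F L 1) (hq : q ∈ Qw F L) (h : x + q ∈ N) : x ∈ N := by
  classical
  obtain ⟨v, hv, hv1, rfl⟩ := Qw_decomp q hq
  have h1 : 1 ∉ v.support := by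
    rw [Finsupp.notMem_support_iff]
    exact hv1
  have h2 := comp_mem (psi F L) N hN (insert 1 v.support) (fun j => if j = 1 then x else v j) (fun j _ => by
    by_cases hj : j = 1
    · subst hj
      simp only [if_true]
      exact psi_Pw 1 x hx
    · simp only [if_neg hj]
      exact psi_Pw j _ (hv j)) (by
    rw [Finset.sum_insert h1, if_pos rfl, Finset.sum_congr rfl (g := fun j => v j)]
    · exact h
    · intro j hj
      rw [if_neg]
      rintro rfl
      exact h1 hj) 1 (Finset.mem_insert_self _ _)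
  simpa using h2

variable (F L) in
theorem isCompl_Pw : IsCompl (Pw F L 1) (Qw F L) := by
  constructor
  · rw [Submodule.disjoint_def]
    intro x hx hq
    have h1 := comp_one_mem (F := F) (L := L) ⊥ (fun x hx => by
      rw [(Submodule.mem_bot F).1 hx, map_zero]
      exact zero_mem _) x (-x) hx ((Qw F L).neg_mem hq) (by rw [add_neg_cancel]; exact zero_mem _)
    exact (Submodule.mem_bot F).1 h1
  · rw [codisjoint_iff, eq_top_iff, ← iSup_Pw F L]
    refine iSup_le fun m => ?_
    by_cases hm : m = 1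
    · subst hm
      exact le_sup_left
    · exact le_sup_of_le_right (le_iSup (fun m : {m : ℕ // m ≠ 1} => Pw F L m.1) ⟨m, hm⟩)

variable (F L) in
/-- The inverse of the embedding of `L`, as a map from its range. -/
noncomputable def inL : L →ₗ[F] Pw F L 1 where
  toFun x := ⟨UniversalEnvelopingAlgebra.ι F x, by
    have h := pow_mem_Pw (F := F) x 1
    rwa [pow_one] at h⟩
  map_add' x y := Subtype.ext (map_add _ x y)
  map_smul' c x := Subtype.ext (map_smul _ c x)

omit [CharZero F] in
theorem inL_bij : Function.Bijective (inL F L) := by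
  constructor
  · intro x y h
    exact iota_inj F L (congrArg Subtype.val h)
  · rintro ⟨x, hx⟩
    obtain ⟨p, rfl⟩ := Pw_one x hx
    exact ⟨p, rfl⟩

variable (F L) in
/-- The projection of the universal enveloping algebra onto the Lie algebra. -/
noncomputable def pi : UniversalEnvelopingAlgebra F L →ₗ[F] L :=
  (LinearEquiv.ofBijective (inL F L) inL_bij).symm.toLinearMap ∘ₗ
    Submodule.projectionOnto (Pw F L 1) (Qw F L) (isCompl_Pw F L)

/-- The decomposition which defines the projection. -/
theorem iota_pi (u : UniversalEnvelopingAlgebra F L) :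
    ∃ q ∈ Qw F L, u = UniversalEnvelopingAlgebra.ι F (pi F L u) + q := by
  have h1 : inL F L (pi F L u) = Submodule.projectionOnto (Pw F L 1) (Qw F L) (isCompl_Pw F L) u :=
    (LinearEquiv.ofBijective (inL F L) inL_bij).apply_symm_apply _
  have h2 : UniversalEnvelopingAlgebra.ι F (pi F L u) =
      (Submodule.projectionOnto (Pw F L 1) (Qw F L) (isCompl_Pw F L) u : UniversalEnvelopingAlgebra F L) :=
    congrArg Subtype.val h1
  refine ⟨u - UniversalEnvelopingAlgebra.ι F (pi F L u), ?_, by abel⟩
  have h3 : u - UniversalEnvelopingAlgebra.ι F (pi F L u) ∈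
      LinearMap.ker (Submodule.projectionOnto (Pw F L 1) (Qw F L) (isCompl_Pw F L)) := by
    rw [h2, LinearMap.mem_ker, map_sub, sub_eq_zero]
    exact (Submodule.projectionOnto_apply_left _ _).symm
  rwa [Submodule.ker_projectionOnto] at h3

theorem pi_eq (u : UniversalEnvelopingAlgebra F L) (x : L) (q : UniversalEnvelopingAlgebra F L) (hq : q ∈ Qw F L)
    (h : u = UniversalEnvelopingAlgebra.ι F x + q) : pi F L u = x := by
  obtain ⟨q', hq', h'⟩ := iota_pi u
  apply iota_inj F L
  rw [← sub_eq_zero]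
  have h1 : UniversalEnvelopingAlgebra.ι F (pi F L u) - UniversalEnvelopingAlgebra.ι F x = q - q' := by
    rw [sub_eq_sub_iff_add_eq_add, ← h', add_comm q, ← h]
  have h2 := Submodule.disjoint_def.1 (isCompl_Pw F L).disjoint
    (UniversalEnvelopingAlgebra.ι F (pi F L u) - UniversalEnvelopingAlgebra.ι F x)
    (by
      rw [← map_sub]
      exact (inL F L (pi F L u - x)).2)
    (by
      rw [h1]
      exact sub_mem hq hq')
  exact h2

theorem pi_iota (x : L) : pi F L (UniversalEnvelopingAlgebra.ι F x) = x :=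
  pi_eq _ x 0 (zero_mem _) (by rw [add_zero])

theorem pi_pow (p : L) (m : ℕ) (hm : m ≠ 1) : pi F L (UniversalEnvelopingAlgebra.ι F p ^ m) = 0 :=
  pi_eq _ 0 _ (Submodule.mem_iSup_of_mem (⟨m, hm⟩ : {m : ℕ // m ≠ 1}) (pow_mem_Pw p m)) (by rw [map_zero, zero_add])

theorem pi_one : pi F L 1 = 0 := by
  rw [← pow_zero (UniversalEnvelopingAlgebra.ι F (0 : L))]
  exact pi_pow 0 0 (by omega)

theorem Qw_lie (l : L) (q : UniversalEnvelopingAlgebra F L) (hq : q ∈ Qw F L) :
    q * UniversalEnvelopingAlgebra.ι F l - UniversalEnvelopingAlgebra.ι F l * q ∈ Qw F L := by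
  have h : Qw F L ≤ (Qw F L).comap (LinearMap.mulRight F (UniversalEnvelopingAlgebra.ι F l) -
      LinearMap.mulLeft F (UniversalEnvelopingAlgebra.ι F l)) :=
    iSup_le fun m u hu => Submodule.mem_iSup_of_mem m (Pw_lie l m.1 u hu)
  exact h hq

/-- The projection commutes with the adjoint action. -/
theorem pi_lie (u : UniversalEnvelopingAlgebra F L) (l : L) :
    pi F L (u * UniversalEnvelopingAlgebra.ι F l - UniversalEnvelopingAlgebra.ι F l * u) = ⁅pi F L u, l⁆ := by
  obtain ⟨q, hq, h⟩ := iota_pi u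
  refine pi_eq _ _ (q * UniversalEnvelopingAlgebra.ι F l - UniversalEnvelopingAlgebra.ι F l * q) (Qw_lie l q hq) ?_
  rw [LieHom.map_lie, LieRing.of_associative_ring_bracket]
  conv_lhs => rw [h]
  noncomm_ring

theorem pi_lie' (u : UniversalEnvelopingAlgebra F L) (l : L) :
    pi F L (UniversalEnvelopingAlgebra.ι F l * u - u * UniversalEnvelopingAlgebra.ι F l) = ⁅l, pi F L u⁆ := by
  have h := pi_lie u l
  rw [← neg_sub, map_neg, h, lie_skew]

variable {I : Type*} [LinearOrder I] (b : Basis I F L) (wt : I → ℕ)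

omit [LinearOrder I] in
theorem iota_pi_mem_UG {m : ℕ} {u : UniversalEnvelopingAlgebra F L} (hu : u ∈ UG b wt m) :
    UniversalEnvelopingAlgebra.ι F (pi F L u) ∈ UG b wt m := by
  obtain ⟨q, hq, h⟩ := iota_pi u
  refine comp_one_mem (UG b wt m) (psi_UG b wt m) _ q (inL F L (pi F L u)).2 hq ?_
  rw [← h]
  exact hu

/-- The projection respects the filtrations by the weights. -/
theorem pi_UG (hwt : WOk b wt) {m : ℕ} {u : UniversalEnvelopingAlgebra F L} (hu : u ∈ UG b wt m) (i : I)
    (hi : b.repr (pi F L u) i ≠ 0) : m ≤ wt i :=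
  iota_mem_UG b wt hwt (iota_pi_mem_UG b wt hu) i hi

end Projection

end PBWB
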