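import Pool.Agent.Lib.MP_c108b5_al.PBW

/-!
# The Poincare-Birkhoff-Witt theorem

`L` is a Lie algebra over a field `F` with a basis `b` indexed by a linearly ordered set `I`. The products of the
`ι (b i)` over the sorted words are a basis of the universal enveloping algebra. Weighted forms.
-/

namespace PBWB

open Module Pool.Agent.PoissonHopf

attribute [local instance 100] LieRing.ofAssociativeRing

variable {F L I : Type*} [Field F] [LieRing L] [LieAlgebra F L]

section Defs

variable (b : Basis I F L)

/-- The product of the elements of the basis over the word `w`, in the universal enveloping algebra. -/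
noncomputable def wp (w : List I) : UniversalEnvelopingAlgebra F L :=
  (w.map fun i => UniversalEnvelopingAlgebra.ι F (b i)).prod

/-- The word `w` in the free algebra. -/
noncomputable def fw (F : Type*) [Field F] (w : List I) : FreeAlgebra F I := (w.map (FreeAlgebra.ι F)).prod

/-- The element `x` as a combination of the generators of the free algebra. -/
noncomputable def lin : L →ₗ[F] FreeAlgebra F I := b.constr F (FreeAlgebra.ι F)

/-- The relation `i j - j i - [b i, b j]` in the free algebra. -/
noncomputable def rel (i j : I) : FreeAlgebra F I :=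
  FreeAlgebra.ι F i * FreeAlgebra.ι F j - FreeAlgebra.ι F j * FreeAlgebra.ι F i - lin b ⁅b i, b j⁆

/-- The map from the free algebra to the universal enveloping algebra. -/
noncomputable def toU : FreeAlgebra F I →ₐ[F] UniversalEnvelopingAlgebra F L :=
  FreeAlgebra.lift F fun i => UniversalEnvelopingAlgebra.ι F (b i)

/-- The weight of a word. -/
def wgt (wt : I → ℕ) (w : List I) : ℕ := (w.map wt).sum

/-- The span of the words of weight at least `m` in the free algebra. -/
noncomputable def FG (F : Type*) [Field F] (wt : I → ℕ) (m : ℕ) : Submodule F (FreeAlgebra F I) :=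
  Submodule.span F {x | ∃ w : List I, m ≤ wgt wt w ∧ x = fw F w}

/-- The span of the products over the words of weight at least `m` in the universal enveloping algebra. -/
noncomputable def UG (wt : I → ℕ) (m : ℕ) : Submodule F (UniversalEnvelopingAlgebra F L) :=
  Submodule.span F {x | ∃ w : List I, m ≤ wgt wt w ∧ x = wp b w}

/-- The span of the products over the words of length at most `n` in the universal enveloping algebra. -/
noncomputable def UD (n : ℕ) : Submodule F (UniversalEnvelopingAlgebra F L) :=
  Submodule.span F {x | ∃ w : List I, w.length ≤ n ∧ x = wp b w}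

/-- The weights are compatible with the bracket. -/
def WOk (wt : I → ℕ) : Prop := ∀ i j k, b.repr ⁅b i, b j⁆ k ≠ 0 → wt i + wt j ≤ wt k

end Defs

section Basic

variable (b : Basis I F L)

theorem wp_nil : wp b [] = 1 := rfl

theorem wp_cons (i : I) (w : List I) : wp b (i :: w) = UniversalEnvelopingAlgebra.ι F (b i) * wp b w := by
  simp [wp]

theorem wp_append (u v : List I) : wp b (u ++ v) = wp b u * wp b v := by
  simp [wp]

theorem wp_single (i : I) : wp b [i] = UniversalEnvelopingAlgebra.ι F (b i) := by
  simp [wp]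

theorem fw_nil : fw F ([] : List I) = 1 := rfl

theorem fw_cons (i : I) (w : List I) : fw F (i :: w) = FreeAlgebra.ι F i * fw F w := by
  simp [fw]

theorem fw_append (u v : List I) : fw F (u ++ v) = fw F u * fw F v := by
  simp [fw]

theorem fw_single (i : I) : fw F [i] = FreeAlgebra.ι F i := by
  simp [fw]

theorem lin_basis (i : I) : lin b (b i) = FreeAlgebra.ι F i := by
  simp [lin]

theorem toU_fw (w : List I) : toU b (fw F w) = wp b w := by
  induction w with
  | nil => simp [fw_nil, wp_nil]
  | cons i w ih =>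
    rw [fw_cons, wp_cons, map_mul, ih]
    simp [toU]

theorem toU_lin (x : L) : toU b (lin b x) = UniversalEnvelopingAlgebra.ι F x := by
  have h : (toU b).toLinearMap ∘ₗ lin b =
      ((UniversalEnvelopingAlgebra.ι F : L →ₗ⁅F⁆ UniversalEnvelopingAlgebra F L) :
        L →ₗ[F] UniversalEnvelopingAlgebra F L) := by
    refine b.ext fun i => ?_
    rw [LinearMap.comp_apply, lin_basis]
    exact FreeAlgebra.lift_ι_apply _ i
  exact congrArg (fun f => f x) h

theorem toU_rel (i j : I) : toU b (rel b i j) = 0 := by
  rw [rel, map_sub, map_sub, map_mul, map_mul, toU_lin, LieHom.map_lie]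
  simp [toU, LieRing.of_associative_ring_bracket]

theorem wgt_nil (wt : I → ℕ) : wgt wt [] = 0 := rfl

theorem wgt_cons (wt : I → ℕ) (i : I) (w : List I) : wgt wt (i :: w) = wt i + wgt wt w := by
  simp [wgt]

theorem wgt_append (wt : I → ℕ) (u v : List I) : wgt wt (u ++ v) = wgt wt u + wgt wt v := by
  simp [wgt]

theorem wgt_perm (wt : I → ℕ) {u v : List I} (h : u.Perm v) : wgt wt u = wgt wt v :=
  (h.map wt).sum_eq

theorem FG_anti (wt : I → ℕ) {m n : ℕ} (h : m ≤ n) : FG F wt n ≤ FG F wt m :=
  Submodule.span_mono fun _ ⟨w, hw, hx⟩ => ⟨w, h.trans hw, hx⟩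

theorem UG_anti (wt : I → ℕ) {m n : ℕ} (h : m ≤ n) : UG b wt n ≤ UG b wt m :=
  Submodule.span_mono fun _ ⟨w, hw, hx⟩ => ⟨w, h.trans hw, hx⟩

theorem UD_mono {m n : ℕ} (h : m ≤ n) : UD b m ≤ UD b n :=
  Submodule.span_mono fun _ ⟨w, hw, hx⟩ => ⟨w, hw.trans h, hx⟩

/-- The filtration by the weights is multiplicative. -/
theorem FG_mul (wt : I → ℕ) {m n : ℕ} {x y : FreeAlgebra F I} (hx : x ∈ FG F wt m) (hy : y ∈ FG F wt n) :
    x * y ∈ FG F wt (m + n) := by
  refine (Submodule.span_le (p := (FG F wt (m + n)).comap (LinearMap.mulRight F y))).2 ?_ hx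
  rintro _ ⟨u, hu, rfl⟩
  refine (Submodule.span_le (p := (FG F wt (m + n)).comap (LinearMap.mulLeft F (fw F u)))).2 ?_ hy
  rintro _ ⟨v, hv, rfl⟩
  refine Submodule.subset_span ⟨u ++ v, ?_, ?_⟩
  · rw [wgt_append]
    omega
  · rw [LinearMap.mulLeft_apply, fw_append]

/-- The filtration by the weights is multiplicative. -/
theorem UG_mul (wt : I → ℕ) {m n : ℕ} {x y : UniversalEnvelopingAlgebra F L} (hx : x ∈ UG b wt m)
    (hy : y ∈ UG b wt n) : x * y ∈ UG b wt (m + n) := by
  refine (Submodule.span_le (p := (UG b wt (m + n)).comap (LinearMap.mulRight F y))).2 ?_ hx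
  rintro _ ⟨u, hu, rfl⟩
  refine (Submodule.span_le (p := (UG b wt (m + n)).comap (LinearMap.mulLeft F (wp b u)))).2 ?_ hy
  rintro _ ⟨v, hv, rfl⟩
  refine Submodule.subset_span ⟨u ++ v, ?_, ?_⟩
  · rw [wgt_append]
    omega
  · rw [LinearMap.mulLeft_apply, wp_append]

/-- The filtration by the lengths is multiplicative. -/
theorem UD_mul {m n : ℕ} {x y : UniversalEnvelopingAlgebra F L} (hx : x ∈ UD b m) (hy : y ∈ UD b n) :
    x * y ∈ UD b (m + n) := by
  refine (Submodule.span_le (p := (UD b (m + n)).comap (LinearMap.mulRight F y))).2 ?_ hx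
  rintro _ ⟨u, hu, rfl⟩
  refine (Submodule.span_le (p := (UD b (m + n)).comap (LinearMap.mulLeft F (wp b u)))).2 ?_ hy
  rintro _ ⟨v, hv, rfl⟩
  refine Submodule.subset_span ⟨u ++ v, ?_, ?_⟩
  · rw [List.length_append]
    omega
  · rw [LinearMap.mulLeft_apply, wp_append]

theorem FG_zero (wt : I → ℕ) : FG F wt 0 = (⊤ : Submodule F (FreeAlgebra F I)) := by
  rw [eq_top_iff]
  rintro x -
  induction x using FreeAlgebra.induction with
  | grade0 r =>
    rw [Algebra.algebraMap_eq_smul_one]
    exact Submodule.smul_mem _ _ (Submodule.subset_span ⟨[], by simp, rfl⟩)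
  | grade1 i => exact Submodule.subset_span ⟨[i], by simp, (fw_single i).symm⟩
  | mul x y hx hy => exact FG_mul (m := 0) (n := 0) wt hx hy
  | add x y hx hy => exact add_mem hx hy

theorem toU_surj : Function.Surjective (toU b) := by
  intro u
  obtain ⟨g, hg⟩ : ∃ g : L →ₗ⁅F⁆ (toU b).range, ∀ x, (g x : UniversalEnvelopingAlgebra F L) =
      UniversalEnvelopingAlgebra.ι F x :=
    ⟨{ toFun := fun x => ⟨UniversalEnvelopingAlgebra.ι F x, ⟨lin b x, toU_lin b x⟩⟩
       map_add' := fun x y => Subtype.ext (map_add _ x y)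
       map_smul' := fun c x => Subtype.ext (map_smul _ c x)
       map_lie' := fun {x y} => Subtype.ext (LieHom.map_lie _ x y) }, fun x => rfl⟩
  have h2 : (toU b).range.val.comp (UniversalEnvelopingAlgebra.lift F g) =
      AlgHom.id F (UniversalEnvelopingAlgebra F L) := by
    refine UniversalEnvelopingAlgebra.hom_ext F (LieHom.ext fun x => ?_)
    have h3 : UniversalEnvelopingAlgebra.lift F g (UniversalEnvelopingAlgebra.ι F x) = g x :=
      UniversalEnvelopingAlgebra.lift_ι_apply F g x
    exact (congrArg Subtype.val h3).trans (hg x)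
  have h4 : (UniversalEnvelopingAlgebra.lift F g u).1 = u := congrArg (fun f => f u) h2
  have h5 := (UniversalEnvelopingAlgebra.lift F g u).2
  rw [h4] at h5
  exact h5

theorem map_FG (wt : I → ℕ) (m : ℕ) : (FG F wt m).map (toU b).toLinearMap = UG b wt m := by
  rw [FG, UG, Submodule.map_span]
  congr 1
  ext x
  constructor
  · rintro ⟨_, ⟨w, hw, rfl⟩, rfl⟩
    exact ⟨w, hw, toU_fw b w⟩
  · rintro ⟨w, hw, rfl⟩
    exact ⟨fw F w, ⟨w, hw, rfl⟩, toU_fw b w⟩

end Basic

section Functional

variable [LinearOrder I] (b : Basis I F L)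

/-- Straightening does not change sorted words. -/
theorem straight_sorted (c : I → I → I →₀ F) (g : List I → F) {w : List I} (hw : w.Pairwise (· ≤ ·)) :
    straight c ∅ g w = g w := by
  rw [straight, if_neg, dif_neg]
  · rintro ⟨⟨u, i, j, v⟩, h, hij⟩
    simp only at h hij
    subst h
    rw [List.pairwise_append] at hw
    have h1 := (List.pairwise_cons.1 hw.2.1).1 j (by simp)
    exact absurd hij (not_lt.2 h1)
  · rintro ⟨u, j, hj, -⟩
    exact hj

/-- The bracket as a bilinear map. -/
noncomputable def br (F L : Type*) [Field F] [LieRing L] [LieAlgebra F L] : L →ₗ[F] L →ₗ[F] L :=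
  (LieAlgebra.ad F L : L →ₗ[F] Module.End F L)

theorem br_apply (x y : L) : br F L x y = ⁅x, y⁆ := rfl

theorem br_self (x : L) : br F L x x = 0 := lie_self x

theorem br_jac (x y z : L) : br F L x (br F L y z) + br F L y (br F L z x) + br F L z (br F L x y) = 0 :=
  lie_jacobi x y z

/-- The action of `L` on the functions on words which are compatible with the bracket. -/
noncomputable def actL : L →ₗ⁅F⁆ Module.End F (Compat b (br F L)) :=
  { rho b (br F L) with
    map_lie' := fun {x y} => by
      rw [LieRing.of_associative_ring_bracket]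
      exact rho_bracket b (br F L) x y }

omit [LinearOrder I] in
theorem act_wp (G : Compat b (br F L)) (w v : List I) :
    (UniversalEnvelopingAlgebra.lift F (actL b) (wp b w) G : List I → F) v = (G : List I → F) (v ++ w) := by
  induction w generalizing v with
  | nil =>
    rw [wp_nil, map_one, Module.End.one_apply, List.append_nil]
  | cons i w ih =>
    rw [wp_cons, map_mul, Module.End.mul_apply, UniversalEnvelopingAlgebra.lift_ι_apply]
    have h1 : (actL b (b i) (UniversalEnvelopingAlgebra.lift F (actL b) (wp b w) G) : List I → F) v =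
        (UniversalEnvelopingAlgebra.lift F (actL b) (wp b w) G : List I → F) (v ++ [i]) :=
      transl_basis b i _ v
    rw [h1, ih]
    simp

/-- There are linear functionals on the universal enveloping algebra with prescribed values at the sorted products. -/
theorem functional (g : List I → F) :
    ∃ f : UniversalEnvelopingAlgebra F L →ₗ[F] F, ∀ w : List I, w.Pairwise (· ≤ ·) → f (wp b w) = g w := by
  have hgood := straight_good b (br F L) br_self br_jac ∅ (by simp) (by simp) g
  have hF : straight (fun i j => b.repr (br F L (b i) (b j))) ∅ g ∈ Compat b (br F L) := by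
    intro u i j v
    have h := rel_of_good b (br F L) _ br_self (hgood (u ++ i :: j :: v)) (hgood (u ++ j :: i :: v))
    rw [h, ext1, Basis.constr_apply]
    simp
  refine ⟨{
    toFun := fun u => (UniversalEnvelopingAlgebra.lift F (actL b) u ⟨_, hF⟩ : List I → F) []
    map_add' := fun u v => by simp
    map_smul' := fun c u => by simp }, fun w hw => ?_⟩
  show (UniversalEnvelopingAlgebra.lift F (actL b) (wp b w) ⟨_, hF⟩ : List I → F) [] = g w
  rw [act_wp, List.nil_append]
  exact straight_sorted _ g hw

/-- The sorted products are linearly independent. -/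
theorem li : LinearIndependent F fun w : {w : List I // w.Pairwise (· ≤ ·)} => wp b w.1 := by
  classical
  rw [linearIndependent_iff']
  intro s c hc w hw
  obtain ⟨f, hf⟩ := functional b fun v => if v = w.1 then 1 else 0
  have h1 := congrArg f hc
  rw [map_sum, map_zero, Finset.sum_eq_single w] at h1
  · rw [map_smul, hf _ w.2, if_pos rfl, smul_eq_mul, mul_one] at h1
    exact h1
  · intro v _ hv
    rw [map_smul, hf _ v.2, if_neg (fun h => hv (Subtype.ext h)), smul_zero]
  · intro h
    exact absurd hw h

end Functional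

section Straighten

variable [LinearOrder I] (b : Basis I F L) (wt : I → ℕ)

/-- Combinations of sorted words and of the relations, with bounds for weights and lengths. -/
noncomputable def ST (m n : ℕ) : Submodule F (FreeAlgebra F I) :=
  Submodule.span F {x | ∃ w : List I, w.Pairwise (· ≤ ·) ∧ m ≤ wgt wt w ∧ w.length ≤ n ∧ x = fw F w} ⊔
    Submodule.span F {x | ∃ (u : List I) (i j : I) (v : List I), m ≤ wgt wt u + wt i + wt j + wgt wt v ∧
      u.length + 2 + v.length ≤ n ∧ x = fw F u * rel b i j * fw F v}

theorem ST_mono {m m' n n' : ℕ} (hm : m' ≤ m) (hn : n ≤ n') : ST b wt m n ≤ ST b wt m' n' := by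
  refine sup_le_sup (Submodule.span_mono ?_) (Submodule.span_mono ?_)
  · rintro _ ⟨w, h1, h2, h3, rfl⟩
    exact ⟨w, h1, hm.trans h2, h3.trans hn, rfl⟩
  · rintro _ ⟨u, i, j, v, h1, h2, rfl⟩
    exact ⟨u, i, j, v, hm.trans h1, h2.trans hn, rfl⟩

/-- A word which is not sorted has a descent. -/
theorem exists_descent {w : List I} (hw : ¬ w.Pairwise (· ≤ ·)) :
    ∃ (u : List I) (i j : I) (v : List I), w = u ++ i :: j :: v ∧ j < i := by
  induction w with
  | nil => exact absurd List.Pairwise.nil hw
  | cons a w ih =>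
    by_cases h : w.Pairwise (· ≤ ·)
    · cases w with
      | nil => exact absurd (List.pairwise_singleton _ a) hw
      | cons c w =>
        refine ⟨[], a, c, w, rfl, ?_⟩
        by_contra hac
        push Not at hac
        apply hw
        rw [List.pairwise_cons]
        refine ⟨fun d hd => ?_, h⟩
        rcases List.mem_cons.1 hd with rfl | hd
        · exact hac
        · exact hac.trans ((List.pairwise_cons.1 h).1 d hd)
    · obtain ⟨u, i, j, v, h1, h2⟩ := ih h
      exact ⟨a :: u, i, j, v, by rw [h1]; rfl, h2⟩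

omit [LinearOrder I] in
theorem fw_swap (u v : List I) (i j : I) :
    fw F (u ++ i :: j :: v) = fw F (u ++ j :: i :: v) + fw F u * rel b i j * fw F v +
      fw F u * lin b ⁅b i, b j⁆ * fw F v := by
  rw [fw_append, fw_append, fw_cons, fw_cons, fw_cons, fw_cons, rel]
  noncomm_ring

/-- Straightening in the free algebra. -/
theorem straighten (hwt : WOk b wt) (w : List I) : fw F w ∈ ST b wt (wgt wt w) w.length := by
  have main : ∀ n m : ℕ, ∀ w : List I, w.length = n → inv w = m → fw F w ∈ ST b wt (wgt wt w) w.length := by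
    intro n
    induction n using Nat.strong_induction_on with
    | _ n ihn =>
    intro m
    induction m using Nat.strong_induction_on with
    | _ m ihm =>
    intro w hn hm
    by_cases hw : w.Pairwise (· ≤ ·)
    · exact Submodule.mem_sup_left (Submodule.subset_span ⟨w, hw, le_rfl, le_rfl, rfl⟩)
    obtain ⟨u, i, j, v, hw1, hij⟩ := exists_descent hw
    subst hw1
    rw [fw_swap b u v i j]
    refine add_mem (add_mem ?_ ?_) ?_
    · have h1 := ihm (inv (u ++ j :: i :: v)) (by rw [← hm]; exact inv_swap_lt u v hij) (u ++ j :: i :: v)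
        (by rw [← hn]; simp) rfl
      refine ST_mono b wt (le_of_eq ?_) (le_of_eq ?_) h1
      · simp only [wgt_append, wgt_cons]
        omega
      · simp
    · refine Submodule.mem_sup_right (Submodule.subset_span ⟨u, i, j, v, ?_, ?_, rfl⟩)
      · simp only [wgt_append, wgt_cons]
        omega
      · simp only [List.length_append, List.length_cons]
        omega
    · have h1 : fw F u * lin b ⁅b i, b j⁆ * fw F v =
          (b.repr ⁅b i, b j⁆).sum fun k a => a • fw F (u ++ k :: v) := by
        rw [lin, Basis.constr_apply, Finsupp.sum, Finsupp.sum, Finset.mul_sum, Finset.sum_mul]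
        refine Finset.sum_congr rfl fun k _ => ?_
        rw [fw_append, fw_cons, mul_smul_comm, smul_mul_assoc, mul_assoc]
      rw [h1]
      refine Submodule.sum_mem _ fun k hk => Submodule.smul_mem _ _ ?_
      have h2 := hwt i j k (Finsupp.mem_support_iff.1 hk)
      have h3 := ihn (u ++ k :: v).length (by rw [← hn]; simp) (inv (u ++ k :: v)) (u ++ k :: v) rfl rfl
      refine ST_mono b wt ?_ ?_ h3
      · simp only [wgt_append, wgt_cons]
        omega
      · simp
  exact main _ _ w rfl rfl

/-- The elements of the kernel of weight at least `m` are combinations of the `u r v` of weight at least `m`. -/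
theorem ker_mem (hwt : WOk b wt) {m : ℕ} {x : FreeAlgebra F I} (hx : x ∈ FG F wt m) (h0 : toU b x = 0) :
    x ∈ Submodule.span F {x | ∃ (u : List I) (i j : I) (v : List I),
      m ≤ wgt wt u + wt i + wt j + wgt wt v ∧ x = fw F u * rel b i j * fw F v} := by
  have h1 : x ∈ Submodule.span F {x | ∃ w : List I, w.Pairwise (· ≤ ·) ∧ m ≤ wgt wt w ∧ x = fw F w} ⊔
      Submodule.span F {x | ∃ (u : List I) (i j : I) (v : List I),
      m ≤ wgt wt u + wt i + wt j + wgt wt v ∧ x = fw F u * rel b i j * fw F v} := by
    refine (Submodule.span_le.2 ?_) hx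
    rintro _ ⟨w, hw, rfl⟩
    obtain ⟨y, hy, z, hz, hyz⟩ := Submodule.mem_sup.1 (straighten b wt hwt w)
    rw [← hyz]
    refine add_mem (Submodule.mem_sup_left ((Submodule.span_mono ?_) hy))
      (Submodule.mem_sup_right ((Submodule.span_mono ?_) hz))
    · rintro _ ⟨v, h1, h2, -, rfl⟩
      exact ⟨v, h1, hw.trans h2, rfl⟩
    · rintro _ ⟨u, i, j, v, h1, -, rfl⟩
      exact ⟨u, i, j, v, hw.trans h1, rfl⟩
  obtain ⟨y, hy, z, hz, rfl⟩ := Submodule.mem_sup.1 h1
  have h2 : toU b z = 0 := by
    have h3 : Submodule.span F {x | ∃ (u : List I) (i j : I) (v : List I),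
        m ≤ wgt wt u + wt i + wt j + wgt wt v ∧ x = fw F u * rel b i j * fw F v} ≤
        LinearMap.ker (toU b).toLinearMap := by
      refine Submodule.span_le.2 ?_
      rintro _ ⟨u, i, j, v, -, rfl⟩
      show toU b (fw F u * rel b i j * fw F v) = 0
      rw [map_mul, map_mul, toU_rel, mul_zero, zero_mul]
    exact h3 hz
  rw [map_add, h2, add_zero] at h0
  have h3 : y = 0 := by
    have h4 : y ∈ Submodule.span F (Set.range fun w : {w : List I // w.Pairwise (· ≤ ·)} => fw F w.1) := by
      refine (Submodule.span_mono ?_) hy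
      rintro _ ⟨w, h1, -, rfl⟩
      exact ⟨⟨w, h1⟩, rfl⟩
    obtain ⟨c, rfl⟩ := (Finsupp.mem_span_range_iff_exists_finsupp).1 h4
    have h5 : (c.sum fun w a => a • wp b w.1) = 0 := by
      rw [← h0, Finsupp.sum, Finsupp.sum, map_sum]
      refine Finset.sum_congr rfl fun w _ => ?_
      rw [map_smul, toU_fw]
    have h6 : c = 0 := by
      have h7 := li b
      rw [linearIndependent_iff] at h7
      exact h7 c h5
    rw [h6, Finsupp.sum_zero_index]
  rw [h3, zero_add]
  exact hz

/-- The elements of the kernel are combinations of the `u r v`. -/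
theorem ker_mem_zero {x : FreeAlgebra F I} (h0 : toU b x = 0) :
    x ∈ Submodule.span F {x | ∃ (u : List I) (i j : I) (v : List I), x = fw F u * rel b i j * fw F v} := by
  have h1 := ker_mem b (fun _ => 0) (fun i j k _ => le_rfl) (m := 0) (x := x) (by rw [FG_zero]; trivial) h0
  refine (Submodule.span_mono ?_) h1
  rintro _ ⟨u, i, j, v, -, rfl⟩
  exact ⟨u, i, j, v, rfl⟩

/-- Straightening in the universal enveloping algebra. -/
theorem wp_mem (hwt : WOk b wt) (w : List I) :
    wp b w ∈ Submodule.span F {x | ∃ v : List I, v.Pairwise (· ≤ ·) ∧ wgt wt w ≤ wgt wt v ∧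
      v.length ≤ w.length ∧ x = wp b v} := by
  have h1 := Submodule.mem_map_of_mem (f := (toU b).toLinearMap) (straighten b wt hwt w)
  rw [ST, Submodule.map_sup, Submodule.map_span, Submodule.map_span] at h1
  have h2 : (toU b).toLinearMap (fw F w) = wp b w := toU_fw b w
  rw [h2] at h1
  obtain ⟨y, hy, z, hz, hyz⟩ := Submodule.mem_sup.1 h1
  rw [← hyz]
  refine add_mem ((Submodule.span_mono ?_) hy) ((Submodule.span_le.2 ?_) hz)
  · rintro _ ⟨_, ⟨v, h1, h2, h3, rfl⟩, rfl⟩
    exact ⟨v, h1, h2, h3, toU_fw b v⟩
  · rintro _ ⟨_, ⟨u, i, j, v, -, -, rfl⟩, rfl⟩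
    show toU b (fw F u * rel b i j * fw F v) ∈ _
    rw [map_mul, map_mul, toU_rel, mul_zero, zero_mul]
    exact zero_mem _

omit [LinearOrder I] in
theorem UG_zero : UG b wt 0 = ⊤ := by
  rw [← map_FG, FG_zero, Submodule.map_top, LinearMap.range_eq_top]
  exact toU_surj b

theorem span_sorted : ⊤ ≤ Submodule.span F (Set.range fun w : {w : List I // w.Pairwise (· ≤ ·)} => wp b w.1) := by
  rw [← UG_zero b fun _ => 0, UG]
  refine Submodule.span_le.2 ?_
  rintro _ ⟨w, -, rfl⟩
  refine (Submodule.span_mono ?_) (wp_mem b (fun _ => 0) (fun i j k _ => le_rfl) w)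
  rintro _ ⟨v, h1, -, -, rfl⟩
  exact ⟨⟨v, h1⟩, rfl⟩

/-- The Poincare-Birkhoff-Witt basis: the products over the sorted words. -/
noncomputable def pbw : Basis {w : List I // w.Pairwise (· ≤ ·)} F (UniversalEnvelopingAlgebra F L) :=
  Basis.mk (li b) (span_sorted b)

theorem pbw_apply (w : {w : List I // w.Pairwise (· ≤ ·)}) : pbw b w = wp b w.1 :=
  Basis.mk_apply _ _ w

/-- The filtration by the weights in terms of the basis. -/
theorem mem_UG_iff (hwt : WOk b wt) {m : ℕ} {u : UniversalEnvelopingAlgebra F L} :
    u ∈ UG b wt m ↔ ∀ w, (pbw b).repr u w ≠ 0 → m ≤ wgt wt w.1 := by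
  constructor
  · intro hu
    have h1 : u ∈ Submodule.span F (pbw b '' {w | m ≤ wgt wt w.1}) := by
      refine (Submodule.span_le.2 ?_) hu
      rintro _ ⟨w, hw, rfl⟩
      refine (Submodule.span_mono ?_) (wp_mem b wt hwt w)
      rintro _ ⟨v, h1, h2, -, rfl⟩
      exact ⟨⟨v, h1⟩, hw.trans h2, pbw_apply b _⟩
    intro w hw
    have h2 := (pbw b).mem_span_image.1 h1
    exact h2 (Finsupp.mem_support_iff.2 hw)
  · intro h
    rw [← (pbw b).linearCombination_repr u, Finsupp.linearCombination_apply]
    refine Submodule.sum_mem _ fun w hw => Submodule.smul_mem _ _ ?_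
    rw [pbw_apply]
    exact Submodule.subset_span ⟨w.1, h w (Finsupp.mem_support_iff.1 hw), rfl⟩

/-- The filtration by the lengths in terms of the basis. -/
theorem mem_UD_iff {n : ℕ} {u : UniversalEnvelopingAlgebra F L} :
    u ∈ UD b n ↔ ∀ w, (pbw b).repr u w ≠ 0 → w.1.length ≤ n := by
  constructor
  · intro hu
    have h1 : u ∈ Submodule.span F (pbw b '' {w | w.1.length ≤ n}) := by
      refine (Submodule.span_le.2 ?_) hu
      rintro _ ⟨w, hw, rfl⟩
      refine (Submodule.span_mono ?_) (wp_mem b (fun _ => 0) (fun i j k _ => le_rfl) w)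
      rintro _ ⟨v, h1, -, h2, rfl⟩
      exact ⟨⟨v, h1⟩, h2.trans hw, pbw_apply b _⟩
    intro w hw
    have h2 := (pbw b).mem_span_image.1 h1
    exact h2 (Finsupp.mem_support_iff.2 hw)
  · intro h
    rw [← (pbw b).linearCombination_repr u, Finsupp.linearCombination_apply]
    refine Submodule.sum_mem _ fun w hw => Submodule.smul_mem _ _ ?_
    rw [pbw_apply]
    exact Submodule.subset_span ⟨w.1, h w (Finsupp.mem_support_iff.1 hw), rfl⟩

theorem iota_eq_sum (x : L) : UniversalEnvelopingAlgebra.ι F x =
    ∑ i ∈ (b.repr x).support, (b.repr x) i • pbw b ⟨[i], List.pairwise_singleton _ i⟩ := by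
  conv_lhs => rw [← b.linearCombination_repr x, Finsupp.linearCombination_apply, Finsupp.sum, map_sum]
  refine Finset.sum_congr rfl fun i _ => ?_
  rw [pbw_apply, wp_single, map_smul]

theorem repr_iota_zero (x : L) (w : {w : List I // w.Pairwise (· ≤ ·)}) (h : ∀ i, w.1 ≠ [i]) :
    (pbw b).repr (UniversalEnvelopingAlgebra.ι F x) w = 0 := by
  rw [iota_eq_sum b x, map_sum, Finsupp.finsetSum_apply]
  refine Finset.sum_eq_zero fun i _ => ?_
  rw [map_smul, Basis.repr_self, Finsupp.smul_apply, Finsupp.single_apply, if_neg, smul_zero]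
  intro h3
  exact h i (congrArg Subtype.val h3).symm

theorem repr_iota_single (x : L) (j : I) :
    (pbw b).repr (UniversalEnvelopingAlgebra.ι F x) ⟨[j], List.pairwise_singleton _ j⟩ = b.repr x j := by
  rw [iota_eq_sum b x, map_sum, Finsupp.finsetSum_apply, Finset.sum_eq_single j]
  · rw [map_smul, Basis.repr_self, Finsupp.smul_apply, Finsupp.single_apply, if_pos rfl, smul_eq_mul, mul_one]
  · intro i _ hi
    rw [map_smul, Basis.repr_self, Finsupp.smul_apply, Finsupp.single_apply, if_neg, smul_zero]
    intro h3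
    exact hi (List.singleton_inj.1 (congrArg Subtype.val h3))
  · intro h3
    rw [Finsupp.notMem_support_iff.1 h3, zero_smul, map_zero, Finsupp.zero_apply]

/-- An element of `L` is in the filtration by the weights only if its coordinates of small weight are zero. -/
theorem iota_mem_UG (hwt : WOk b wt) {m : ℕ} {x : L} (h : UniversalEnvelopingAlgebra.ι F x ∈ UG b wt m) (i : I)
    (hi : b.repr x i ≠ 0) : m ≤ wt i := by
  have h1 := (mem_UG_iff b wt hwt).1 h ⟨[i], List.pairwise_singleton _ i⟩ (by rw [repr_iota_single]; exact hi)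
  simpa [wgt] using h1

end Straighten

/-- A Lie algebra over a field embeds in its universal enveloping algebra. -/
theorem iota_inj (F L : Type*) [Field F] [LieRing L] [LieAlgebra F L] :
    Function.Injective (UniversalEnvelopingAlgebra.ι F : L →ₗ⁅F⁆ UniversalEnvelopingAlgebra F L) := by
  classical
  let b := Basis.ofVectorSpace F L
  let _ : LinearOrder (Basis.ofVectorSpaceIndex F L) := linearOrderOfSTO WellOrderingRel
  intro x y hxy
  apply b.repr.injective
  ext i
  rw [← repr_iota_single b x i, ← repr_iota_single b y i, hxy]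

end PBWB
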